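import Mathlib
import Pool.Agent.Helper58_MOO.Stmts

/-!
Module DKA of the MOO project: amalgamation in the forcing `DK`.
-/

open Cardinal
open Pool.Agent.Helper69_LOTS

namespace Pool.Agent.MOO.H25

open Node

theorem prec_trans {c : Set (Set Om) → Set Om} {N₁ N₂ N₃ : Set (Set Om)} (h : Prec c N₁ N₂)
    (h' : Prec c N₂ N₃) : Prec c N₁ N₃ :=
  ⟨h.1.trans h'.1, h'.1 h.2.1, h.2.2.trans h'.2.2⟩

theorem tr_union (X Y : Set Node) (δ : Om) : tr (X ∪ Y) δ = tr X δ ∪ tr Y δ := by
  ext s
  constructor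
  · rintro ⟨x, hx | hx, h1, h2⟩
    · exact Or.inl ⟨x, hx, h1, h2⟩
    · exact Or.inr ⟨x, hx, h1, h2⟩
  · rintro (⟨x, hx, h1, h2⟩ | ⟨x, hx, h1, h2⟩)
    · exact ⟨x, Or.inl hx, h1, h2⟩
    · exact ⟨x, Or.inr hx, h1, h2⟩

theorem tr_mono {X Y : Set Node} (h : X ⊆ Y) (δ : Om) : tr X δ ⊆ tr Y δ := by
  rintro s ⟨x, hx, h1, h2⟩
  exact ⟨x, h hx, h1, h2⟩

theorem tr_empty_of_lt {X : Set Node} {δ : Om} (h : ∀ x ∈ X, x.ht < δ) : tr X δ = ∅ := by
  ext s
  constructor
  · rintro ⟨x, hx, h1, -⟩
    exact absurd (h x hx) (not_lt.2 h1)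
  · intro h1
    exact absurd h1 (Set.notMem_empty s)

/-- The upper nodes of a condition of the given type restrict to flips of `t`. -/
theorem typ_node {T K : Set Node} {A : Om → Set Node} {C₀ : Set Om}
    {c : Set (Set Om) → Set Om} {r₀ : DK T K A C₀ c} {m : ℕ} {ζ : Om} {τ : Node}
    {e : Finset (Finset Om)} {r : DK T K A C₀ c} {L : Fin (m + 1) → Set (Set Om)} {t : Node}
    (h : Typ r₀ m ζ τ e r L t) {x : Node} (hx : x ∈ r.X) (hx' : dlt (L 0) ≤ x.ht) :
    ∃ g ∈ e, ∀ ξ, ξ ≤ dlt (L 0) → x.res ξ = flip g (t.res ξ) := by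
  have h1 : x.res (dlt (L 0)) ∈ tr (r.X : Set Node) (dlt (L 0)) := ⟨x, hx, hx', rfl⟩
  rw [h.orb] at h1
  obtain ⟨g, hg, h2⟩ := h1
  refine ⟨g, hg, fun ξ hξ => ?_⟩
  rw [← res_res_of_le x hξ, h2, flip_res]

theorem dka : DkaStmt := by
  classical
  intro T K A C C₀ c hT hL hA hC r₀ m ζ τ e hpar r L t htyp r₁ L₁ t₁ htyp₁ hprec hlow hacc
  have hL0r : L 0 ∈ r.N := (htyp.models _).2 (Or.inr ⟨0, rfl⟩)
  have hr₀r : ∀ M ∈ r₀.N, M ∈ r.N := fun M hM => (htyp.models M).2 (Or.inl hM)
  have hr₀r₁ : ∀ M ∈ r₀.N, M ∈ r₁.N := fun M hM => (htyp₁.models M).2 (Or.inl hM)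
  have hmonoL : ∀ j, dlt (L 0) ≤ dlt (L j) := by
    intro j
    rcases (Fin.zero_le j).lt_or_eq with h | h
    · exact (htyp.mono 0 j h).2.2.le
    · rw [← h]
  have hmonoL₁ : ∀ j, dlt (L₁ 0) ≤ dlt (L₁ j) := by
    intro j
    rcases (Fin.zero_le j).lt_or_eq with h | h
    · exact (htyp₁.mono 0 j h).2.2.le
    · rw [← h]
  have hprecL : ∀ i j, Prec c (L₁ i) (L j) := by
    intro i j
    rcases (Fin.zero_le j).lt_or_eq with h | h
    · exact prec_trans (hprec i) (htyp.mono 0 j h)
    · rw [← h]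
      exact hprec i
  have hcast : ((r.X ∪ r₁.X : Finset Node) : Set Node) = (r.X : Set Node) ∪ (r₁.X : Set Node) :=
    Finset.coe_union _ _
  let p : DK T K A C₀ c :=
    { X := r.X ∪ r₁.X
      N := r.N ∪ r₁.N
      hX := by
        intro x hx
        rcases Finset.mem_union.1 hx with h | h
        · exact r.hX x h
        · exact r₁.hX x h
      gd := by
        intro M hM
        rcases Finset.mem_union.1 hM with h | h
        · exact r.gd M h
        · exact r₁.gd M h
      ch := by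
        have key : ∀ M ∈ r.N, ∀ M' ∈ r₁.N, M ≠ M' → Prec c M M' ∨ Prec c M' M := by
          intro M hM M' hM' hne
          rcases (htyp.models M).1 hM with h | ⟨j, rfl⟩
          · exact r₁.ch M (hr₀r₁ M h) M' hM' hne
          · rcases (htyp₁.models M').1 hM' with h' | ⟨i, rfl⟩
            · exact r.ch _ hM M' (hr₀r M' h') hne
            · exact Or.inr (hprecL i j)
        intro M hM M' hM' hne
        rcases Finset.mem_union.1 hM with h | h <;> rcases Finset.mem_union.1 hM' with h' | h'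
        · exact r.ch M h M' h' hne
        · exact key M h M' h' hne
        · exact (key M' h' M h (Ne.symm hne)).symm
        · exact r₁.ch M h M' h' hne
      acc := by
        have hr₀ : ∀ M ∈ r₀.N, Acc T K A (dlt M)
            (tr ((r.X ∪ r₁.X : Finset Node) : Set Node) (dlt M)) := by
          intro M hM
          have h1 : tr (r₁.X : Set Node) (dlt M) ⊆ tr (r.X : Set Node) (dlt M) := by
            rintro s ⟨x, hx, h2, rfl⟩
            rcases htyp₁.nodes x hx with h3 | h3
            · exact ⟨x, htyp.sub h3, h2, rfl⟩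
            · obtain ⟨g, hg, h4⟩ := typ_node htyp₁ hx h3
              have hMζ : dlt M ≤ ζ := hpar.nl M hM
              have h5 : flip g t ∈ tr (r.X : Set Node) (dlt (L 0)) := by
                rw [htyp.orb]
                exact ⟨g, hg, rfl⟩
              obtain ⟨x', hx', h6, h7⟩ := h5
              refine ⟨x', hx', (hMζ.trans htyp.zlt.le).trans h6, ?_⟩
              rw [h4 _ (hMζ.trans htyp₁.zlt.le),
                ← res_res_of_le x' (hMζ.trans htyp.zlt.le), ← h7, ← flip_res,
                res_eq_of_le htyp₁.tau (by rw [hpar.tht]; exact hMζ),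
                res_eq_of_le htyp.tau (by rw [hpar.tht]; exact hMζ)]
          rw [hcast, tr_union, Set.union_eq_self_of_subset_right h1]
          exact r.acc M (hr₀r M hM)
        intro M hM
        rcases Finset.mem_union.1 hM with h | h
        · rcases (htyp.models M).1 h with h1 | ⟨j, rfl⟩
          · exact hr₀ M h1
          · rw [hcast, tr_union, tr_empty_of_lt (X := (r₁.X : Set Node))
              (fun x hx => (hlow x hx).trans_le (hmonoL j)), Set.union_empty]
            exact r.acc _ h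
        · rcases (htyp₁.models M).1 h with h1 | ⟨j, rfl⟩
          · exact hr₀ M h1
          · have hC1 : dlt (L₁ j) ∈ C := hC (r₁.gd _ h).mem
            refine hA.mono _ hC1 _ _ (hacc j) ?_
            rw [hcast, tr_union]
            rintro s (⟨x, hx, h2, rfl⟩ | h2)
            · rcases htyp.nodes x hx with h3 | h3
              · exact Or.inl ⟨x, htyp₁.sub h3, h2, rfl⟩
              · obtain ⟨g, hg, h4⟩ := typ_node htyp hx h3
                exact Or.inr ⟨g, hg, h4 _ (hprec j).2.2.le⟩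
            · exact Or.inl h2 }
  exact ⟨p, ⟨Finset.subset_union_right, Finset.subset_union_right⟩,
    ⟨Finset.subset_union_left, Finset.subset_union_left⟩⟩

end Pool.Agent.MOO.H25
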