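import Mathlib
import Pool.Agent.Helper58_MOO.Stmts
import Pool.Agent.Helper25_MOO.Dka

/-!
Module DKP of the MOO project: properness of the forcing `DK`.
-/

open Cardinal
open Pool.Agent.Helper69_LOTS

namespace Pool.Agent.MOO.H25

open Node

theorem dk_ext {T K : Set Node} {A : Om → Set Node} {C₀ : Set Om}
    {c : Set (Set Om) → Set Om} {p q : DK T K A C₀ c} (h1 : p.X = q.X) (h2 : p.N = q.N) :
    p = q := by
  cases p
  cases q
  simp only at h1 h2
  subst h1 h2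
  rfl

theorem lim_fin {δ : Om} (hδ : IsLim δ) (F : Finset Om) (hF : ∀ ξ ∈ F, ξ < δ) :
    ∃ ζ, ζ < δ ∧ ∀ ξ ∈ F, ξ < ζ := by
  classical
  induction F using Finset.induction_on with
  | empty =>
    obtain ⟨ζ, hζ⟩ := hδ.1
    exact ⟨ζ, hζ, fun ξ hξ => absurd hξ (Finset.notMem_empty ξ)⟩
  | insert a F _ ih =>
    obtain ⟨ζ, h1, h2⟩ := ih (fun ξ hξ => hF ξ (Finset.mem_insert_of_mem hξ))
    obtain ⟨η, h3, h4⟩ := hδ.2 (max ζ a) (max_lt h1 (hF a (Finset.mem_insert_self a F)))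
    refine ⟨η, h4, fun ξ hξ => ?_⟩
    rcases Finset.mem_insert.1 hξ with rfl | h5
    · exact (le_max_right _ _).trans_lt h3
    · exact (h2 ξ h5).trans ((le_max_left _ _).trans_lt h3)

theorem below_countable (ζ : Om) : {e : Finset (Finset Om) | Below e ζ}.Countable := by
  classical
  have hI : Countable {ξ : Om // ξ < ζ} := (Om_Iio_countable ζ)
  refine (Set.countable_range (fun E : Finset (Finset {ξ : Om // ξ < ζ}) =>
    E.image (fun s => s.map (Function.Embedding.subtype (fun ξ => ξ < ζ))))).mono ?_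
  intro e he
  refine ⟨e.image (fun g => g.subtype (fun ξ => ξ < ζ)), ?_⟩
  simp only [Finset.image_image]
  conv_rhs => rw [← Finset.image_id (s := e)]
  refine Finset.image_congr (fun g hg => ?_)
  simp only [Function.comp_apply, id]
  exact Finset.subtype_map_of_mem (fun ξ hξ => he g hg ξ hξ)

/-- The small parameters of a type. -/
abbrev Bt (T : Set Node) : Type :=
  {b : Om × Node × Finset (Finset Om) × ℕ //
    b.2.1 ∈ T ∧ b.2.1.ht = b.1 ∧ Below b.2.2.1 b.1}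

theorem bt_countable {T : Set Node} (hT : AT T) (δ : Om) : {b : Bt T | b.1.1 = δ}.Countable := by
  have h1 : (({δ} : Set Om) ×ˢ ({s | s ∈ T ∧ s.ht = δ} : Set Node) ×ˢ
      ({e | Below e δ} : Set (Finset (Finset Om))) ×ˢ (Set.univ : Set ℕ)).Countable :=
    (Set.countable_singleton δ).prod ((hT.lev δ).prod ((below_countable δ).prod
      (Set.countable_univ)))
  refine (h1.preimage (f := (Subtype.val : Bt T → _)) Subtype.val_injective).mono ?_
  intro b hb
  have hb' : b.1.1 = δ := hb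
  refine ⟨hb', ⟨b.2.1, b.2.2.1.trans hb'⟩, ?_, Set.mem_univ _⟩
  have := b.2.2.2
  rw [hb'] at this
  exact this

theorem exists_level {T : Set Node} (hT : AT T) (δ : Om) : ∃ t ∈ T, t.ht = δ := by
  obtain ⟨s, hs⟩ := hT.ne
  rcases le_total s.ht δ with h | h
  · obtain ⟨t, ht, -, h2⟩ := hT.ext s hs δ h
    exact ⟨t, ht, h2⟩
  · exact ⟨s.res δ, hT.down s hs δ, res_ht_of_le h⟩

/-- The empty condition. -/
def dk0 (T K : Set Node) (A : Om → Set Node) (C₀ : Set Om) (c : Set (Set Om) → Set Om) :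
    DK T K A C₀ c where
  X := ∅
  N := ∅
  hX := fun x hx => absurd hx (Finset.notMem_empty x)
  gd := fun x hx => absurd hx (Finset.notMem_empty x)
  ch := fun x hx => absurd hx (Finset.notMem_empty x)
  acc := fun x hx => absurd hx (Finset.notMem_empty x)

theorem dkp (hKEY : KeyStmt) (hDKA : DkaStmt) (hCRD : CrdStmt) (hGDM : GdmStmt) : DkpStmt := by
  classical
  intro hPFA T K A C C₀ c hT hL hA hC₀ hC₀C hc
  obtain ⟨-, -, -, cP, hcP⟩ := hCRD
  have hPne : Nonempty (DK T K A C₀ c) := ⟨dk0 T K A C₀ c⟩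
  -- the ambient type
  let P : Type := DK T K A C₀ c
  let Par : Type := Set P × P × Bt T
  let Amb : Type := (P ⊕ Set P) ⊕ ((Set Om ⊕ Node) ⊕ (Bt T ⊕ Par))
  let iP : P → Amb := fun p => Sum.inl (Sum.inl p)
  let iD : Set P → Amb := fun D => Sum.inl (Sum.inr D)
  let iSN : Set Om ⊕ Node → Amb := fun a => Sum.inr (Sum.inl a)
  let iS : Set Om → Amb := fun a => iSN (Sum.inl a)
  let iN : Node → Amb := fun a => iSN (Sum.inr a)
  let iB : Bt T → Amb := fun a => Sum.inr (Sum.inr (Sum.inl a))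
  let iPar : Par → Amb := fun a => Sum.inr (Sum.inr (Sum.inr a))
  have hiP : Function.Injective iP := Sum.inl_injective.comp Sum.inl_injective
  have hiD : Function.Injective iD := Sum.inl_injective.comp Sum.inr_injective
  have hiSN : Function.Injective iSN := Sum.inr_injective.comp Sum.inl_injective
  have hiS : Function.Injective iS := hiSN.comp Sum.inl_injective
  have hiN : Function.Injective iN := hiSN.comp Sum.inr_injective
  have hiB : Function.Injective iB :=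
    Sum.inr_injective.comp (Sum.inr_injective.comp Sum.inl_injective)
  have hiPar : Function.Injective iPar :=
    Sum.inr_injective.comp (Sum.inr_injective.comp Sum.inr_injective)
  have hAne : Nonempty Amb := ⟨iP (dk0 T K A C₀ c)⟩
  let o : Om → Amb := fun ξ => iS {ξ}
  have ho : Function.Injective o := hiS.comp Set.singleton_injective
  -- the clubs
  have c1 : CM (fun M : Set Amb => GdM C₀ (iS ⁻¹' M)) := CM.lift hiS (hGDM C₀ hC₀)
  have c2 : CM (fun M : Set Amb => ∀ a : {s : Node // s ∈ T}, iN a.1 ∈ M ↔ o a.1.ht ∈ M) := by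
    refine CM.rank ho (i := fun a : {s : Node // s ∈ T} => iN a.1)
      (hiN.comp Subtype.val_injective) (fun a => a.1.ht) (fun δ => ?_)
    refine ((hT.lev δ).preimage (f := (Subtype.val : {s : Node // s ∈ T} → Node))
      Subtype.val_injective).mono ?_
    intro a ha
    exact ⟨a.2, ha⟩
  have c3 : CM (fun M : Set Amb => ∀ b : Bt T, iB b ∈ M ↔ o b.1.1 ∈ M) :=
    CM.rank ho hiB (fun b => b.1.1) (fun δ => bt_countable hT.toAT δ)
  have c4 : CM (fun M : Set Amb => ∀ D p b, iD D ∈ M → iP p ∈ M → iB b ∈ M →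
      (∃ x : Par, x = (D, p, b)) → ∃ x : Par, iPar x ∈ M ∧ x = (D, p, b)) :=
    CM.skolem3 hiD hiP hiB (fun D p b x => x = (D, p, b))
  have c5 : CM (fun M : Set Amb => ∀ x ∈ M, ∀ y : Par, x = iPar y →
      TyPar y.2.1 y.2.2.1.1 y.2.2.1.2.1 y.2.2.1.2.2.1 →
      ∀ r ∈ y.1, ∀ L t, Typ y.2.1 y.2.2.1.2.2.2 y.2.2.1.1 y.2.2.1.2.1 y.2.2.1.2.2.1 r L t →
        L 0 = iS ⁻¹' M →
        ∃ r₁ ∈ y.1, ∃ L₁ t₁,
          Typ y.2.1 y.2.2.1.2.2.2 y.2.2.1.1 y.2.2.1.2.1 y.2.2.1.2.2.1 r₁ L₁ t₁ ∧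
          cP (r₁.X, r₁.N) ∈ iS ⁻¹' M ∧
          ∀ j, dlt (L₁ j) < dlt (iS ⁻¹' M) →
            Acc T K A (dlt (L₁ j)) (tr (r₁.X : Set Node) (dlt (L₁ j)) ∪
              orb y.2.2.1.2.2.1 (t.res (dlt (L₁ j))))) := by
    refine CM.diag (fun x => ?_)
    by_cases hx : ∃ y : Par, x = iPar y ∧ TyPar y.2.1 y.2.2.1.1 y.2.2.1.2.1 y.2.2.1.2.2.1
    · obtain ⟨y, rfl, hy⟩ := hx
      have h1 := hKEY hPFA T K A C C₀ c cP hT hL hA hC₀ hC₀C hc y.1 y.2.1 y.2.2.1.2.2.2
        y.2.2.1.1 y.2.2.1.2.1 y.2.2.1.2.2.1 hy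
      refine (CM.lift hiS h1).mono (fun M _ hM y' hy' _ => ?_)
      obtain rfl := hiPar hy'
      exact hM
    · refine ⟨fun _ _ => Classical.arbitrary Amb, fun M _ _ y hy hy' => ?_⟩
      exact absurd ⟨y, hy, hy'⟩ hx
  have c6 : CM (fun M : Set Amb => ∀ p : P, iP p ∈ M →
      ((⋃ N' ∈ p.N, iS '' N') ∪ ((fun N' => iS (c N')) '' (p.N : Set (Set (Set Om)))) ∪
        ((fun N' => iS {dlt N'}) '' (p.N : Set (Set (Set Om)))) ∪
        ((fun x : Node => iS {x.ht}) '' (p.X : Set Node))) ⊆ M) := by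
    refine CM.swallow hiP _ (fun p => ?_)
    refine Set.Countable.union (Set.Countable.union (Set.Countable.union ?_ ?_) ?_) ?_
    · exact (p.N.countable_toSet).biUnion (fun N' hN' => (p.gd N' hN').cnt.image _)
    · exact (p.N.countable_toSet).image _
    · exact (p.N.countable_toSet).image _
    · exact (p.X.countable_toSet).image _
  have c7 : CM (fun M : Set Amb => ∀ l : List (Set Om ⊕ Node), (∀ a ∈ l, iSN a ∈ M) →
      (∃ p : P, (∀ x, x ∈ p.X ↔ Sum.inr x ∈ l) ∧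
        (∀ N', N' ∈ p.N ↔ (N'.Countable ∧ Sum.inl (c N') ∈ l))) →
      ∃ p : P, iP p ∈ M ∧ ((∀ x, x ∈ p.X ↔ Sum.inr x ∈ l) ∧
        (∀ N', N' ∈ p.N ↔ (N'.Countable ∧ Sum.inl (c N') ∈ l)))) :=
    CM.skolemTL hiSN (fun (l : List (Set Om ⊕ Node)) (p : P) =>
      (∀ x, x ∈ p.X ↔ Sum.inr x ∈ l) ∧
        (∀ N', N' ∈ p.N ↔ (N'.Countable ∧ Sum.inl (c N') ∈ l)))
  have c8 : CM (fun M : Set Amb => ∀ a : Set Om, iS a ∈ M → (∃ p : P, cP (p.X, p.N) = a) →
      ∃ p : P, iP p ∈ M ∧ cP (p.X, p.N) = a) :=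
    CM.skolem1 hiS (fun a (p : P) => cP (p.X, p.N) = a)
  have hij : Function.Injective (Sum.elim iP iD) := by
    rintro (a | a) (b | b) h
    · exact congrArg _ (hiP h)
    · exact absurd (Sum.inl_injective h) (by simp)
    · exact absurd (Sum.inl_injective h) (by simp)
    · exact congrArg _ (hiD h)
  refine proper_of_ambient hij ?_
  refine (c1.and (c2.and (c3.and (c4.and (c5.and (c6.and (c7.and c8))))))).mono ?_
  rintro M hMc ⟨m1, m2, m3, m4, m5, m6, m7, m8⟩ p hp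
  -- the model
  obtain ⟨N, hN⟩ : ∃ N : Set (Set Om), N = iS ⁻¹' M := ⟨_, rfl⟩
  have hNm : ∀ a, a ∈ N ↔ iS a ∈ M := fun a => by rw [hN]; rfl
  rw [← hN] at m1 m5
  have hδC : dlt N ∈ C := hC₀C m1.mem
  have hom : ∀ ξ, o ξ ∈ M ↔ ξ < dlt N := fun ξ => (hNm {ξ}).symm.trans (m1.tr ξ)
  -- conditions in `M` are below `N`
  have hbelow : ∀ d : P, iP d ∈ M → (∀ N' ∈ d.N, Prec c N' N) ∧ (∀ x ∈ d.X, x.ht < dlt N) := by
    intro d hd
    have h1 := m6 d hd
    refine ⟨fun N' hN' => ⟨fun a ha => ?_, ?_, ?_⟩, fun x hx => ?_⟩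
    · refine (hNm a).2 (h1 ?_)
      exact Or.inl (Or.inl (Or.inl (Set.mem_biUnion hN' ⟨a, ha, rfl⟩)))
    · exact (hNm _).2 (h1 (Or.inl (Or.inl (Or.inr ⟨N', hN', rfl⟩))))
    · exact (m1.tr _).1 ((hNm _).2 (h1 (Or.inl (Or.inr ⟨N', hN', rfl⟩))))
    · exact (m1.tr _).1 ((hNm _).2 (h1 (Or.inr ⟨x, hx, rfl⟩)))
  obtain ⟨hp1, hp2⟩ := hbelow p hp
  let q : P :=
    { X := p.X
      N := insert N p.N
      hX := p.hX
      gd := by
        intro M' hM'
        rcases Finset.mem_insert.1 hM' with rfl | h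
        · exact m1
        · exact p.gd M' h
      ch := by
        intro M' hM' M'' hM'' hne
        rcases Finset.mem_insert.1 hM' with h | h <;> rcases Finset.mem_insert.1 hM'' with h' | h'
        · exact absurd (h.trans h'.symm) hne
        · rw [h]
          exact Or.inr (hp1 M'' h')
        · rw [h']
          exact Or.inl (hp1 M' h)
        · exact p.ch M' h M'' h' hne
      acc := by
        intro M' hM'
        rcases Finset.mem_insert.1 hM' with h | h
        · rw [h, tr_empty_of_lt (fun x hx => hp2 x hx)]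
          exact hA.empty _ hδC
        · exact p.acc M' h }
  refine ⟨q, ⟨Finset.Subset.refl _, Finset.subset_insert _ _⟩, fun D hD hDM r' hr' => ?_⟩
  obtain ⟨r, hrD, hrr'⟩ := hD r'
  suffices hsuff : ∃ d ∈ D, iP d ∈ M ∧ Comp d r by
    obtain ⟨d, h1, h2, r₂, h3, h4⟩ := hsuff
    exact ⟨d, h1, h2, r₂, h3, h4.trans hrr'⟩
  have hrq : r ≤ q := hrr'.trans hr'
  have hNr : N ∈ r.N := hrq.2 (Finset.mem_insert_self _ _)
  have hdlt_inj : ∀ M' ∈ r.N, ∀ M'' ∈ r.N, dlt M' = dlt M'' → M' = M'' := by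
    intro M' hM' M'' hM'' h
    by_contra hne
    rcases r.ch M' hM' M'' hM'' hne with h1 | h1
    · exact absurd h1.2.2 (by rw [h]; exact lt_irrefl _)
    · exact absurd h1.2.2 (by rw [h]; exact lt_irrefl _)
  have hprec : ∀ M' ∈ r.N, ∀ M'' ∈ r.N, dlt M' < dlt M'' → Prec c M' M'' := by
    intro M' hM' M'' hM'' h
    rcases r.ch M' hM' M'' hM'' (fun h' => by rw [h'] at h; exact lt_irrefl _ h) with h1 | h1
    · exact h1
    · exact absurd (h1.2.2.trans h) (lt_irrefl _)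
  -- the lower part
  let r₀ : P :=
    { X := r.X.filter (fun x => x.ht < dlt N)
      N := r.N.filter (fun N' => dlt N' < dlt N)
      hX := fun x hx => r.hX x (Finset.mem_filter.1 hx).1
      gd := fun x hx => r.gd x (Finset.mem_filter.1 hx).1
      ch := fun x hx y hy => r.ch x (Finset.mem_filter.1 hx).1 y (Finset.mem_filter.1 hy).1
      acc := by
        intro M' hM'
        have h1 := (Finset.mem_filter.1 hM').1
        refine hA.mono _ (hC₀C (r.gd M' h1).mem) _ _ (r.acc M' h1) (tr_mono ?_ _)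
        intro x hx
        exact (Finset.mem_filter.1 hx).1 }
  have hr₀M : iP r₀ ∈ M := by
    have hl : ∀ a ∈ r₀.X.toList.map (Sum.inr : Node → Set Om ⊕ Node) ++
        r₀.N.toList.map (fun N' => (Sum.inl (c N') : Set Om ⊕ Node)), iSN a ∈ M := by
      intro a ha
      rcases List.mem_append.1 ha with h | h
      · obtain ⟨x, hx, rfl⟩ := List.mem_map.1 h
        have hx' := Finset.mem_filter.1 (Finset.mem_toList.1 hx)
        exact (m2 ⟨x, r.hX x hx'.1⟩).2 ((hom _).2 hx'.2)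
      · obtain ⟨N', hN', rfl⟩ := List.mem_map.1 h
        have hx' := Finset.mem_filter.1 (Finset.mem_toList.1 hN')
        exact (hNm _).1 (hprec N' hx'.1 N hNr hx'.2).2.1
    have hmem1 : ∀ x : Node, (Sum.inr x : Set Om ⊕ Node) ∈
        r₀.X.toList.map (Sum.inr : Node → Set Om ⊕ Node) ++
        r₀.N.toList.map (fun N' => (Sum.inl (c N') : Set Om ⊕ Node)) ↔ x ∈ r₀.X := by
      intro x
      simp
    have hmem2 : ∀ a : Set Om, (Sum.inl a : Set Om ⊕ Node) ∈
        r₀.X.toList.map (Sum.inr : Node → Set Om ⊕ Node) ++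
        r₀.N.toList.map (fun N' => (Sum.inl (c N') : Set Om ⊕ Node)) ↔
        ∃ N' ∈ r₀.N, c N' = a := by
      intro a
      simp
    have hr₀R : ∀ N', N' ∈ r₀.N ↔ (N'.Countable ∧ ∃ N'' ∈ r₀.N, c N'' = c N') := by
      intro N'
      constructor
      · intro h
        exact ⟨(r₀.gd N' h).cnt, N', h, rfl⟩
      · rintro ⟨h1, N'', h2, h3⟩
        rw [← hc N'' N' (r₀.gd N'' h2).cnt h1 h3]
        exact h2
    obtain ⟨p', hp', h1, h2⟩ := m7 _ hl ⟨r₀, fun x => (hmem1 x).symm, fun N' => by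
      rw [hmem2]
      exact hr₀R N'⟩
    have h3 : p' = r₀ := by
      refine dk_ext (Finset.ext (fun x => ?_)) (Finset.ext (fun N' => ?_))
      · rw [h1, hmem1]
      · rw [h2, hmem2, hr₀R N']
    rw [← h3]
    exact hp'
  -- the upper models
  let U : Finset (Set (Set Om)) := r.N.filter (fun N' => dlt N ≤ dlt N')
  let S : Finset Om := U.image dlt
  have hNU : N ∈ U := Finset.mem_filter.2 ⟨hNr, le_rfl⟩
  have hNS : dlt N ∈ S := Finset.mem_image_of_mem _ hNU
  have hSge : ∀ ξ ∈ S, dlt N ≤ ξ := by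
    intro ξ hξ
    obtain ⟨N', hN', rfl⟩ := Finset.mem_image.1 hξ
    exact (Finset.mem_filter.1 hN').2
  obtain ⟨m, hm⟩ : ∃ m, S.card = m + 1 := ⟨S.card - 1, by
    have := Finset.card_pos.2 ⟨_, hNS⟩
    omega⟩
  let f := S.orderEmbOfFin hm
  have hfS : ∀ j, ∃ N' ∈ U, dlt N' = f j := fun j =>
    Finset.mem_image.1 (Finset.orderEmbOfFin_mem S hm j)
  choose L hLU hLf using hfS
  have hLr : ∀ j, L j ∈ r.N := fun j => (Finset.mem_filter.1 (hLU j)).1
  have hL0 : L 0 = N := by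
    refine hdlt_inj _ (hLr 0) _ hNr (le_antisymm ?_ ?_)
    · have h1 : dlt N ∈ Set.range f := by
        rw [Finset.range_orderEmbOfFin]
        exact hNS
      obtain ⟨k, hk⟩ := h1
      rw [hLf, ← hk]
      exact f.monotone (Fin.zero_le k)
    · exact (Finset.mem_filter.1 (hLU 0)).2
  have hLmono : ∀ i j, i < j → Prec c (L i) (L j) := by
    intro i j hij
    refine hprec _ (hLr i) _ (hLr j) ?_
    rw [hLf, hLf]
    exact f.strictMono hij
  have hmodels : ∀ M', M' ∈ r.N ↔ M' ∈ r₀.N ∨ ∃ j, M' = L j := by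
    intro M'
    constructor
    · intro h
      rcases lt_or_ge (dlt M') (dlt N) with h1 | h1
      · exact Or.inl (Finset.mem_filter.2 ⟨h, h1⟩)
      · right
        have h2 : dlt M' ∈ Set.range f := by
          rw [Finset.range_orderEmbOfFin]
          exact Finset.mem_image_of_mem _ (Finset.mem_filter.2 ⟨h, h1⟩)
        obtain ⟨j, hj⟩ := h2
        exact ⟨j, hdlt_inj _ h _ (hLr j) (by rw [hLf, hj])⟩
    · rintro (h | ⟨j, rfl⟩)
      · exact (Finset.mem_filter.1 h).1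
      · exact hLr j
  -- the node
  obtain ⟨t, htT, htht⟩ := exists_level hT.toAT (dlt N)
  have hEfin : (tr (r.X : Set Node) (dlt N)).Finite := by
    refine ((r.X.finite_toSet).image (fun x => x.res (dlt N))).subset ?_
    rintro s ⟨x, hx, -, rfl⟩
    exact ⟨x, hx, rfl⟩
  obtain ⟨e, heB, heE⟩ := hA.rep _ hδC t htT htht _ hEfin (by
    rintro s ⟨x, hx, h1, rfl⟩
    exact ⟨hT.down x (r.hX x hx) _, res_ht_of_le h1⟩)
  obtain ⟨ζ, hζδ, hζ⟩ := lim_fin (hL.lim _ hδC)
    (r₀.X.image (fun x => x.ht) ∪ r₀.N.image dlt ∪ e.biUnion id) (by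
      intro ξ hξ
      rcases Finset.mem_union.1 hξ with h | h
      · rcases Finset.mem_union.1 h with h | h
        · obtain ⟨x, hx, rfl⟩ := Finset.mem_image.1 h
          exact (Finset.mem_filter.1 hx).2
        · obtain ⟨x, hx, rfl⟩ := Finset.mem_image.1 h
          exact (Finset.mem_filter.1 hx).2
      · obtain ⟨g, hg, hξg⟩ := Finset.mem_biUnion.1 h
        exact heB g hg ξ hξg)
  have hτht : (t.res ζ).ht = ζ := res_ht_of_le (by rw [htht]; exact hζδ.le)
  have heζ : Below e ζ := fun g hg ξ hξ =>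
    hζ ξ (Finset.mem_union_right _ (Finset.mem_biUnion.2 ⟨g, hg, hξ⟩))
  let b : Bt T := ⟨(ζ, t.res ζ, e, m), hT.down t htT ζ, hτht, heζ⟩
  have hbM : iB b ∈ M := (m3 b).2 ((hom _).2 hζδ)
  obtain ⟨x, hxM, hx⟩ := m4 D r₀ b hDM hr₀M hbM ⟨_, rfl⟩
  have hpar : TyPar r₀ ζ (t.res ζ) e := by
    refine ⟨hT.down t htT ζ, hτht, heζ, fun x hx => ?_, fun M' hM' => ?_⟩
    · exact hζ _ (Finset.mem_union_left _ (Finset.mem_union_left _
        (Finset.mem_image_of_mem _ hx)))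
    · exact (hζ _ (Finset.mem_union_left _ (Finset.mem_union_right _
        (Finset.mem_image_of_mem _ hM')))).le
  have htyp : Typ r₀ m ζ (t.res ζ) e r L t := by
    refine ⟨hmodels, ?_, hLmono, Finset.filter_subset _ _, ?_, htT, ?_, res_le _ _, ?_, ?_⟩
    · intro M' hM'
      rw [hL0]
      exact hprec _ (Finset.mem_filter.1 hM').1 _ hNr (Finset.mem_filter.1 hM').2
    · intro x hx
      rw [hL0]
      rcases lt_or_ge x.ht (dlt N) with h | h
      · exact Or.inl (Finset.mem_filter.2 ⟨hx, h⟩)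
      · exact Or.inr h
    · rw [hL0]
      exact htht
    · rw [hL0]
      exact hζδ
    · rw [hL0]
      exact heE
  subst hx
  obtain ⟨r₁, hr₁D, L₁, t₁, htyp₁, hcode, hacc⟩ :=
    m5 _ hxM _ rfl hpar r hrD L t htyp hL0
  have hr₁M : iP r₁ ∈ M := by
    obtain ⟨p', hp', h1⟩ := m8 _ ((hNm _).1 hcode) ⟨r₁, rfl⟩
    have h2 := hcP (p'.X, p'.N) (r₁.X, r₁.N) (fun N' hN' => (p'.gd N' hN').cnt)
      (fun N' hN' => (r₁.gd N' hN').cnt) h1
    have h3 : p' = r₁ := dk_ext (congrArg Prod.fst h2) (congrArg Prod.snd h2)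
    rw [← h3]
    exact hp'
  obtain ⟨h1, h2⟩ := hbelow r₁ hr₁M
  refine ⟨r₁, hr₁D, hr₁M, hDKA T K A C C₀ c hT hL hA hC₀C r₀ m ζ (t.res ζ) e hpar r L t htyp
    r₁ L₁ t₁ htyp₁ ?_ ?_ ?_⟩
  · intro j
    rw [hL0]
    exact h1 _ ((htyp₁.models _).2 (Or.inr ⟨j, rfl⟩))
  · rw [hL0]
    exact h2
  · intro j
    exact hacc j (h1 _ ((htyp₁.models _).2 (Or.inr ⟨j, rfl⟩))).2.2

end Pool.Agent.MOO.H25
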